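import Mathlib

/-!
# Følner sets: passage to subgroups and quotients
-/

set_option autoImplicit false

open scoped Pointwise

namespace Pool.Agent.W2helper38.UA

open Classical in
/-- the number of new points of `g F` -/
noncomputable def bd {P : Type} [Group P] (g : P) (F : Finset P) : ℕ := ((g • F) \ F).card

section
variable {P : Type} [Group P]

lemma bd_one (F : Finset P) : bd 1 F = 0 := by
  classical
  unfold bd
  rw [one_smul, sdiff_self]
  rfl

lemma bd_mul (g h : P) (F : Finset P) : bd (g * h) F ≤ bd g F + bd h F := by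
  classical
  unfold bd
  have h1 : ((g * h) • F) \ F ⊆ (g • F \ F) ∪ (g • (h • F \ F)) := by
    intro x hx
    rw [Finset.mem_sdiff, mul_smul] at hx
    rw [Finset.mem_union]
    obtain ⟨y, hy, rfl⟩ := Finset.mem_smul_finset.1 hx.1
    by_cases hyF : y ∈ F
    · left
      exact Finset.mem_sdiff.2 ⟨Finset.smul_mem_smul_finset hyF, hx.2⟩
    · right
      exact Finset.smul_mem_smul_finset (Finset.mem_sdiff.2 ⟨hy, hyF⟩)
  refine (Finset.card_le_card h1).trans ((Finset.card_union_le _ _).trans ?_)
  rw [Finset.card_smul_finset]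

lemma bd_inv (g : P) (F : Finset P) : bd g⁻¹ F = bd g F := by
  classical
  unfold bd
  have h1 : (g⁻¹ • F \ F).card = (F \ g • F).card := by
    rw [← Finset.card_smul_finset g (g⁻¹ • F \ F), Finset.smul_finset_sdiff, smul_inv_smul]
  rw [h1]
  have h2 := Finset.card_sdiff_add_card_inter F (g • F)
  have h3 := Finset.card_sdiff_add_card_inter (g • F) F
  rw [Finset.card_smul_finset, Finset.inter_comm] at h3
  omega

end

/-- the boundary for a word -/
lemma bd_word {Δ : Type} [Group Δ] (Z : Finset Δ) (hZ : Subgroup.closure (Z : Set Δ) = ⊤) (δ : Δ) :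
    ∃ L : ℕ, ∀ (P : Type) [Group P] (φ : Δ →* P) (F : Finset P) (c : ℕ),
      (∀ z ∈ Z, bd (φ z) F ≤ c) → bd (φ δ) F ≤ L * c := by
  have hδ : δ ∈ Subgroup.closure (Z : Set Δ) := by rw [hZ]; trivial
  induction hδ using Subgroup.closure_induction with
  | mem x hx => exact ⟨1, fun P _ φ F c h => by rw [one_mul]; exact h x hx⟩
  | one => exact ⟨0, fun P _ φ F c _ => by rw [map_one, bd_one, zero_mul]⟩
  | mul x y _ _ hx hy =>
    obtain ⟨k, hk⟩ := hx
    obtain ⟨l, hl⟩ := hy
    refine ⟨k + l, fun P _ φ F c h => ?_⟩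
    rw [map_mul, add_mul]
    exact (bd_mul _ _ _).trans (Nat.add_le_add (hk P φ F c h) (hl P φ F c h))
  | inv x _ hx =>
    obtain ⟨k, hk⟩ := hx
    refine ⟨k, fun P _ φ F c h => ?_⟩
    rw [map_inv, bd_inv]
    exact hk P φ F c h

open Classical in
/-- a Følner set for a section -/
theorem section_folner {P G : Type} [Group P] [Group G] [Finite P] [Finite G] (K : Subgroup P)
    (θ : K →* G) {I : Type} [Fintype I] (κ : I → K) (F' : Finset P) (hF' : F'.Nonempty) (δ : ℝ)
    (h : ((∑ i, bd (κ i : P) F' : ℕ) : ℝ) ≤ δ * F'.card) :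
    ∃ F : Finset G, F.Nonempty ∧ F.card ≤ F'.card ∧
      ((∑ i, bd (θ (κ i)) F : ℕ) : ℝ) ≤ δ * F.card := by
  have _ := Fintype.ofFinite P
  have _ := Fintype.ofFinite G
  let R : Type := Quotient (QuotientGroup.rightRel K)
  have hRf : Finite R := inferInstanceAs (Finite (Quotient (QuotientGroup.rightRel K)))
  have _ := Fintype.ofFinite R
  let r : P → R := fun q => Quotient.mk (QuotientGroup.rightRel K) q
  have hr : ∀ q, q * ((r q).out)⁻¹ ∈ K := by
    intro q
    have h1 : (QuotientGroup.rightRel K) (r q).out q := Quotient.mk_out (s := QuotientGroup.rightRel K) q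
    exact QuotientGroup.rightRel_apply.1 h1
  have hrκ : ∀ (a : K) (q : P), r ((a : P) * q) = r q := by
    intro a q
    apply Quotient.sound (s := QuotientGroup.rightRel K)
    refine QuotientGroup.rightRel_apply.2 ?_
    rw [mul_inv_rev, mul_inv_cancel_left]
    exact inv_mem a.2
  let Θ : P → R × G := fun q => (r q, θ ⟨q * ((r q).out)⁻¹, hr q⟩)
  have hΘ : ∀ (a : K) (q : P), Θ ((a : P) * q) = ((Θ q).1, θ a * (Θ q).2) := by
    intro a q
    apply Prod.ext
    · exact hrκ a q
    · show θ ⟨(a : P) * q * ((r ((a : P) * q)).out)⁻¹, hr _⟩ = θ a * θ ⟨q * ((r q).out)⁻¹, hr q⟩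
      rw [← map_mul]
      congr 1
      apply Subtype.ext
      show (a : P) * q * ((r ((a : P) * q)).out)⁻¹ = (a : P) * (q * ((r q).out)⁻¹)
      rw [hrκ, mul_assoc]
  let u : R × G → ℕ := fun e => (F'.filter (fun q => Θ q = e)).card
  set m : ℕ := F'.card with hm
  have hu_le : ∀ e, u e ≤ m := fun e => Finset.card_filter_le _ _
  have hu_sum : ∑ e : R × G, u e = m :=
    (Finset.card_eq_sum_card_fiberwise (f := Θ) (s := F') (t := Finset.univ)
      (fun _ _ => Finset.mem_coe.2 (Finset.mem_univ _))).symm
  let A : R × ℕ → Finset G := fun e => Finset.univ.filter (fun g => e.2 < u (e.1, g))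
  -- the total mass
  have hA_sum : ∑ e ∈ (Finset.univ : Finset R) ×ˢ Finset.range m, (A e).card = m := by
    rw [Finset.sum_product]
    have h1 : ∀ x : R, ∑ j ∈ Finset.range m, (A (x, j)).card = ∑ g : G, u (x, g) := by
      intro x
      have h2 : ∀ j, (A (x, j)).card = ∑ g : G, if j < u (x, g) then 1 else 0 := fun j =>
        Finset.card_filter _ _
      simp_rw [h2]
      rw [Finset.sum_comm]
      apply Finset.sum_congr rfl
      intro g _
      rw [← Finset.card_filter]
      have h3 : (Finset.range m).filter (fun j => j < u (x, g)) = Finset.range (u (x, g)) := by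
        ext j
        simp only [Finset.mem_filter, Finset.mem_range]
        constructor
        · exact fun h => h.2
        · exact fun h => ⟨lt_of_lt_of_le h (hu_le _), h⟩
      rw [h3, Finset.card_range]
    simp_rw [h1]
    rw [← Finset.sum_product, Finset.univ_product_univ]
    exact hu_sum
  -- the boundary
  have hbd : ∀ i, ∑ e ∈ (Finset.univ : Finset R) ×ˢ Finset.range m, bd (θ (κ i)) (A e) ≤
      bd (κ i : P) F' := by
    intro i
    set a : K := κ i with ha
    rw [Finset.sum_product]
    have h1 : ∀ x : R, ∑ j ∈ Finset.range m, bd (θ a) (A (x, j)) ≤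
        ∑ g : G, (((a : P) • F' \ F').filter (fun q => Θ q = (x, g))).card := by
      intro x
      have h2 : ∀ j, bd (θ a) (A (x, j)) =
          ∑ g : G, if (j < u (x, (θ a)⁻¹ * g) ∧ ¬ j < u (x, g)) then 1 else 0 := by
        intro j
        rw [← Finset.card_filter]
        unfold bd
        congr 1
        ext g
        simp only [Finset.mem_sdiff, Finset.mem_filter, Finset.mem_univ, true_and, A,
          Finset.mem_smul_finset, smul_eq_mul]
        constructor
        · rintro ⟨⟨y, hy, rfl⟩, h4⟩
          refine ⟨?_, h4⟩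
          rwa [inv_mul_cancel_left]
        · rintro ⟨h3, h4⟩
          exact ⟨⟨(θ a)⁻¹ * g, h3, mul_inv_cancel_left _ _⟩, h4⟩
      simp_rw [h2]
      rw [Finset.sum_comm]
      apply Finset.sum_le_sum
      intro g _
      rw [← Finset.card_filter]
      have h3 : ((Finset.range m).filter
          (fun j => j < u (x, (θ a)⁻¹ * g) ∧ ¬ j < u (x, g))).card ≤
          u (x, (θ a)⁻¹ * g) - u (x, g) := by
        rw [← Nat.card_Ico]
        apply Finset.card_le_card
        intro j hj
        simp only [Finset.mem_filter, Finset.mem_range] at hj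
        rw [Finset.mem_Ico]
        omega
      refine h3.trans ?_
      have h4 : u (x, (θ a)⁻¹ * g) = (((a : P) • F').filter (fun q => Θ q = (x, g))).card := by
        show (F'.filter (fun q => Θ q = (x, (θ a)⁻¹ * g))).card = _
        rw [← Finset.card_smul_finset (a : P)]
        congr 1
        ext q
        simp only [Finset.mem_filter, Finset.mem_smul_finset, smul_eq_mul]
        constructor
        · rintro ⟨y, ⟨hy, hy2⟩, rfl⟩
          refine ⟨⟨y, hy, rfl⟩, ?_⟩
          rw [hΘ, hy2, mul_inv_cancel_left]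
        · rintro ⟨⟨y, hy, rfl⟩, hy2⟩
          refine ⟨y, ⟨hy, ?_⟩, rfl⟩
          rw [hΘ] at hy2
          have e1 : (Θ y).1 = x := congrArg Prod.fst hy2
          have e2 : θ a * (Θ y).2 = g := congrArg Prod.snd hy2
          have e3 : (Θ y).2 = (θ a)⁻¹ * g := by rw [← e2, inv_mul_cancel_left]
          exact Prod.ext e1 e3
      rw [h4]
      have h5 : ((a : P) • F').filter (fun q => Θ q = (x, g)) ⊆
          (((a : P) • F' \ F').filter (fun q => Θ q = (x, g))) ∪
            (F'.filter (fun q => Θ q = (x, g))) := by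
        intro q hq
        rw [Finset.mem_filter] at hq
        rw [Finset.mem_union, Finset.mem_filter, Finset.mem_filter, Finset.mem_sdiff]
        by_cases hqF : q ∈ F'
        · exact Or.inr ⟨hqF, hq.2⟩
        · exact Or.inl ⟨⟨hq.1, hqF⟩, hq.2⟩
      have h6 := (Finset.card_le_card h5).trans (Finset.card_union_le _ _)
      have h7 : u (x, g) = (F'.filter (fun q => Θ q = (x, g))).card := rfl
      omega
    refine (Finset.sum_le_sum fun x _ => h1 x).trans (le_of_eq ?_)
    have h8 := Finset.card_eq_sum_card_fiberwise (f := Θ) (s := (a : P) • F' \ F')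
      (t := Finset.univ) (fun _ _ => Finset.mem_coe.2 (Finset.mem_univ _))
    rw [← Finset.univ_product_univ, Finset.sum_product] at h8
    exact h8.symm
  -- the choice
  have htot : ((∑ e ∈ (Finset.univ : Finset R) ×ˢ Finset.range m,
      ∑ i, bd (θ (κ i)) (A e) : ℕ) : ℝ) ≤
      ∑ e ∈ (Finset.univ : Finset R) ×ˢ Finset.range m, δ * ((A e).card : ℝ) := by
    rw [← Finset.mul_sum, ← Nat.cast_sum, hA_sum]
    refine le_trans ?_ h
    rw [Finset.sum_comm]
    exact_mod_cast Finset.sum_le_sum fun i _ => hbd i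
  by_contra hcon
  push Not at hcon
  have h1 : ∀ e ∈ (Finset.univ : Finset R) ×ˢ Finset.range m,
      δ * ((A e).card : ℝ) ≤ ((∑ i, bd (θ (κ i)) (A e) : ℕ) : ℝ) := by
    intro e _
    by_cases hne : (A e).Nonempty
    · refine (hcon (A e) hne ?_).le
      have h2 := Finset.single_le_sum (f := fun e => (A e).card)
        (fun _ _ => Nat.zero_le _) (show e ∈ (Finset.univ : Finset R) ×ˢ Finset.range m by assumption)
      rw [hA_sum] at h2
      exact h2
    · rw [Finset.not_nonempty_iff_eq_empty] at hne
      rw [hne, Finset.card_empty, Nat.cast_zero, mul_zero]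
      positivity
  have h2 : ∃ e ∈ (Finset.univ : Finset R) ×ˢ Finset.range m, (A e).Nonempty := by
    by_contra h3
    push Not at h3
    have h4 : ∑ e ∈ (Finset.univ : Finset R) ×ˢ Finset.range m, (A e).card = 0 := by
      apply Finset.sum_eq_zero
      intro e he
      have := h3 e he
      rw [this, Finset.card_empty]
    rw [hA_sum] at h4
    exact (Finset.card_pos.2 hF').ne' h4
  obtain ⟨e, he, hne⟩ := h2
  have h3 : ∑ e ∈ (Finset.univ : Finset R) ×ˢ Finset.range m, δ * ((A e).card : ℝ) <
      ∑ e ∈ (Finset.univ : Finset R) ×ˢ Finset.range m,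
        ((∑ i, bd (θ (κ i)) (A e) : ℕ) : ℝ) := by
    refine Finset.sum_lt_sum h1 ⟨e, he, hcon (A e) hne ?_⟩
    have h2 := Finset.single_le_sum (f := fun e => (A e).card)
        (fun _ _ => Nat.zero_le _) he
    rw [hA_sum] at h2
    exact h2
  rw [← Nat.cast_sum] at h3
  exact absurd htot (not_le.2 h3)

end Pool.Agent.W2helper38.UA
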