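import Mathlib

/-!
# Laws, induced quotients, and subgroups of finite index with free quotients
-/

set_option autoImplicit false

open Equiv (Perm)

namespace Pool.Agent.W2helper38.UA

/-! ### the word `w (x₁ ^ m, …, x_k ^ m)` -/

section
open FreeGroup

/-- repeat every letter `m` times -/
def expand {α : Type} (m : ℕ) (L : List (α × Bool)) : List (α × Bool) :=
  L.flatMap (List.replicate m)

lemma red_rep {α : Type} (a : α × Bool) (M : List (α × Bool)) (h : IsReduced (a :: M)) :
    ∀ j, IsReduced (List.replicate (j + 1) a ++ M) := by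
  intro j
  induction j with
  | zero => exact h
  | succ j ih =>
    rw [List.replicate_succ, List.replicate_succ, List.cons_append, List.cons_append]
    rw [List.replicate_succ, List.cons_append] at ih
    exact isReduced_cons_cons.2 ⟨fun _ => rfl, ih⟩

lemma red_expand {α : Type} (m : ℕ) : ∀ L : List (α × Bool), IsReduced L →
    IsReduced (expand (m + 1) L)
  | [], _ => IsReduced.nil
  | [a], _ => by
    have := red_rep a [] IsReduced.singleton m
    simpa [expand] using this
  | a :: b :: L, h => by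
    rw [isReduced_cons_cons] at h
    have ih := red_expand m (b :: L) h.2
    have h1 : expand (m + 1) (a :: b :: L) = List.replicate (m + 1) a ++ expand (m + 1) (b :: L) :=
      rfl
    have h2 : expand (m + 1) (b :: L) = b :: (List.replicate m b ++ expand (m + 1) L) := by
      show List.replicate (m + 1) b ++ expand (m + 1) L = _
      rw [List.replicate_succ, List.cons_append]
    rw [h1]
    apply red_rep
    rw [h2]
    rw [h2] at ih
    exact isReduced_cons_cons.2 ⟨h.1, ih⟩

lemma lift_pow_mk {α : Type} (m : ℕ) (L : List (α × Bool)) :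
    FreeGroup.lift (fun i : α => FreeGroup.of i ^ m) (FreeGroup.mk L) =
      FreeGroup.mk (expand m L) := by
  have key : ∀ (a : α) (c : Bool), (cond c (FreeGroup.of a ^ m) (FreeGroup.of a ^ m)⁻¹) =
      FreeGroup.mk (List.replicate m (a, c)) := by
    intro a c
    have h1 : ∀ (c : Bool) (m : ℕ), FreeGroup.mk [(a, c)] ^ m =
        FreeGroup.mk (List.replicate m (a, c)) := by
      intro c m
      induction m with
      | zero => rfl
      | succ m ih =>
        rw [pow_succ', ih, FreeGroup.mul_mk, List.replicate_succ]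
        rfl
    cases c
    · show (FreeGroup.of a ^ m)⁻¹ = _
      rw [← inv_pow, ← h1]
      rfl
    · exact h1 true m
  rw [FreeGroup.lift_mk]
  induction L with
  | nil => rfl
  | cons x L ih =>
    rw [List.map_cons, List.prod_cons, ih, key]
    rw [FreeGroup.mul_mk]
    rfl

theorem pow_word_ne {k : ℕ} {w : FreeGroup (Fin k)} (hw : w ≠ 1) {m : ℕ} (hm : 0 < m) :
    FreeGroup.lift (fun i : Fin k => FreeGroup.of i ^ m) w ≠ 1 := by
  obtain ⟨m, rfl⟩ := Nat.exists_eq_succ_of_ne_zero hm.ne'
  have h1 : FreeGroup.mk w.toWord = w := FreeGroup.mk_toWord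
  have h2 : IsReduced w.toWord := IsReduced.of_reduce_eq (FreeGroup.reduce_toWord w)
  intro h
  rw [← h1, lift_pow_mk, ← FreeGroup.toWord_eq_nil_iff, FreeGroup.toWord_mk,
    (red_expand m _ h2).reduce_eq] at h
  apply hw
  rw [← FreeGroup.toWord_eq_nil_iff]
  rcases hL : w.toWord with _ | ⟨a, L⟩
  · rfl
  · rw [hL] at h
    exfalso
    have : expand (m + 1) (a :: L) = a :: (List.replicate m a ++ expand (m + 1) L) := by
      show List.replicate (m + 1) a ++ expand (m + 1) L = _
      rw [List.replicate_succ, List.cons_append]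
    rw [this] at h
    exact List.cons_ne_nil _ _ h

end

/-- `w` is a law of `G` -/
def Law {k : ℕ} (w : FreeGroup (Fin k)) (G : Type) [Group G] : Prop :=
  ∀ g : Fin k → G, FreeGroup.lift g w = 1

lemma lift_map {k : ℕ} {G H : Type} [Group G] [Group H] (φ : G →* H) (g : Fin k → G)
    (w : FreeGroup (Fin k)) : φ (FreeGroup.lift g w) = FreeGroup.lift (fun i => φ (g i)) w := by
  have : φ.comp (FreeGroup.lift g) = FreeGroup.lift (fun i => φ (g i)) := by
    apply FreeGroup.ext_hom
    intro i
    simp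
  exact DFunLike.congr_fun this w

/-- the induced quotient -/
theorem induced_quotient {Δ : Type} [Group Δ] (Λ : Subgroup Δ) (hΛ : Λ.FiniteIndex) {G : Type}
    [Group G] [Finite G] (f : Λ →* G) :
    ∃ (N : Subgroup Δ) (_ : N.Normal), Finite (Δ ⧸ N) ∧
      (∀ l : Λ, (l : Δ) ∈ N → f l = 1) ∧
      ∀ (k : ℕ) (w : FreeGroup (Fin k)), Law w G →
        Law (FreeGroup.lift (fun i : Fin k => FreeGroup.of i ^ Λ.normalCore.index) w) (Δ ⧸ N) := by
  refine ⟨(f.ker.map Λ.subtype).normalCore, inferInstance, ?_, ?_, ?_⟩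
  · have h1 : (f.ker.map Λ.subtype).FiniteIndex := by
      have h2 : (f.ker.map Λ.subtype) ≤ Λ := Subgroup.map_subtype_le _
      have h3 : f.ker.FiniteIndex := Subgroup.finiteIndex_ker f
      refine ⟨?_⟩
      rw [← Subgroup.relIndex_mul_index h2]
      refine mul_ne_zero ?_ hΛ.index_ne_zero
      have h4 : (f.ker.map Λ.subtype).subgroupOf Λ = f.ker := by
        ext x
        rw [Subgroup.mem_subgroupOf]
        constructor
        · rintro ⟨y, hy, hyx⟩
          rwa [← Subtype.ext hyx]
        · exact fun hx => ⟨x, hx, rfl⟩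
      show ((f.ker.map Λ.subtype).subgroupOf Λ).index ≠ 0
      rw [h4]
      exact h3.index_ne_zero
    infer_instance
  · intro l hl
    obtain ⟨y, hy, hyx⟩ := Subgroup.normalCore_le _ hl
    rw [← Subtype.ext hyx]
    exact hy
  · intro k w hw
    set N := (f.ker.map Λ.subtype).normalCore with hN
    intro p
    choose d hd using fun i => QuotientGroup.mk'_surjective N (p i)
    set m := Λ.normalCore.index with hm
    have e1 : FreeGroup.lift p (FreeGroup.lift (fun i : Fin k => FreeGroup.of i ^ m) w) =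
        FreeGroup.lift (fun i => p i ^ m) w := by
      rw [lift_map]
      congr 2
      funext i
      rw [map_pow, FreeGroup.lift_apply_of]
    have e2 : (fun i => p i ^ m) = fun i => QuotientGroup.mk' N (d i ^ m) := by
      funext i
      rw [map_pow, hd]
    rw [e1, e2, ← lift_map]
    apply (QuotientGroup.eq_one_iff _).2
    intro g
    have hmem : ∀ i, g * d i ^ m * g⁻¹ ∈ Λ := by
      intro i
      have h1 : d i ^ m ∈ Λ.normalCore := Λ.normalCore.pow_index_mem (d i)
      exact Subgroup.normalCore_le _ ((inferInstance : Λ.normalCore.Normal).conj_mem _ h1 g)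
    have e3 : g * FreeGroup.lift (fun i => d i ^ m) w * g⁻¹ =
        FreeGroup.lift (fun i => g * d i ^ m * g⁻¹) w := by
      have := lift_map (MulAut.conj g).toMonoidHom (fun i => d i ^ m) w
      exact this
    rw [e3]
    refine ⟨FreeGroup.lift (fun i => (⟨_, hmem i⟩ : Λ)) w, ?_, ?_⟩
    · show f _ = 1
      rw [lift_map]
      exact hw _
    · rw [lift_map]
      rfl

/-! ### subgroups of finite index -/

/-- a subgroup of finite index of `Δ` maps onto `G` -/
def Onto (Δ G : Type) [Group Δ] [Group G] : Prop :=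
  ∃ Λ : Subgroup Δ, Λ.FiniteIndex ∧ ∃ f : Λ →* G, Function.Surjective f

lemma Onto.trans {Δ G H : Type} [Group Δ] [Group G] [Group H] (h1 : Onto Δ G) (h2 : Onto G H) :
    Onto Δ H := by
  obtain ⟨Λ, hΛ, f, hf⟩ := h1
  obtain ⟨M, hM, g, hg⟩ := h2
  have hMf : (M.comap f).FiniteIndex := by
    refine ⟨?_⟩
    rw [Subgroup.index_comap_of_surjective _ hf]
    exact hM.index_ne_zero
  refine ⟨(M.comap f).map Λ.subtype, ?_, ?_⟩
  · have h2 : ((M.comap f).map Λ.subtype) ≤ Λ := Subgroup.map_subtype_le _
    refine ⟨?_⟩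
    rw [← Subgroup.relIndex_mul_index h2]
    refine mul_ne_zero ?_ hΛ.index_ne_zero
    have h4 : ((M.comap f).map Λ.subtype).subgroupOf Λ = M.comap f := by
      ext x
      rw [Subgroup.mem_subgroupOf]
      constructor
      · rintro ⟨y, hy, hyx⟩
        rwa [← Subtype.ext hyx]
      · exact fun hx => ⟨x, hx, rfl⟩
    show (((M.comap f).map Λ.subtype).subgroupOf Λ).index ≠ 0
    rw [h4]
    exact hMf.index_ne_zero
  · let e : (M.comap f) ≃* ((M.comap f).map Λ.subtype) :=
      (M.comap f).equivMapOfInjective Λ.subtype (Subgroup.subtype_injective Λ)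
    let fr : (M.comap f) →* M := (f.comp (M.comap f).subtype).codRestrict M (fun x => x.2)
    have hfr : Function.Surjective fr := by
      rintro ⟨y, hy⟩
      obtain ⟨x, rfl⟩ := hf y
      exact ⟨⟨x, hy⟩, rfl⟩
    exact ⟨(g.comp fr).comp e.symm.toMonoidHom, (hg.comp hfr).comp e.symm.surjective⟩

lemma W_left {Ω G : Type} [Group G] (v w : (Ω → G) ⋊[mulAutArrow] (Perm Ω)) (i : Ω) :
    (v * w).left i = v.left i * w.left (v.right⁻¹ i) := by
  rw [SemidirectProduct.mul_left]
  rfl

/-- the stabiliser of a point in a homomorphism to a wreath product -/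
theorem onto_of_wreath {Δ G Ω : Type} [Group Δ] [Group G] [Finite Ω]
    (Φ : Δ →* (Ω → G) ⋊[mulAutArrow] (Perm Ω)) (o : Ω) (T : Set G) (hT : Subgroup.closure T = ⊤)
    (h : ∀ g ∈ T, ∃ δ : Δ, (Φ δ).right o = o ∧ (Φ δ).left o = g) : Onto Δ G := by
  let Λ : Subgroup Δ := (MulAction.stabilizer (Perm Ω) o).comap (SemidirectProduct.rightHom.comp Φ)
  have hΛ : Λ.FiniteIndex := by
    refine ⟨?_⟩
    show ((MulAction.stabilizer (Perm Ω) o).comap (SemidirectProduct.rightHom.comp Φ)).index ≠ 0
    rw [Subgroup.index_comap]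
    exact Subgroup.index_ne_zero_of_finite
  have hst : ∀ x : Λ, (Φ x).right⁻¹ o = o := by
    intro x
    have h1 : (Φ x).right o = o := x.2
    rw [Perm.inv_eq_iff_eq]
    exact h1.symm
  let f : Λ →* G :=
    { toFun := fun x => (Φ x).left o
      map_one' := by
        show (Φ 1).left o = 1
        rw [map_one]
        rfl
      map_mul' := fun x y => by
        show (Φ (x * y)).left o = (Φ x).left o * (Φ y).left o
        rw [map_mul, W_left, hst] }
  refine ⟨Λ, hΛ, f, ?_⟩
  rw [← MonoidHom.range_eq_top, eq_top_iff, ← hT, Subgroup.closure_le]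
  intro g hg
  obtain ⟨δ, h1, h2⟩ := h g hg
  exact ⟨⟨δ, h1⟩, h2⟩

/-- the free group of rank two -/
theorem free_onto (n : ℕ) [NeZero n] : Onto (FreeGroup (Fin 2)) (FreeGroup (ZMod n)) := by
  let α : (ZMod n → FreeGroup (ZMod n)) ⋊[mulAutArrow] (Perm (ZMod n)) := ⟨1, Equiv.addLeft 1⟩
  let β : (ZMod n → FreeGroup (ZMod n)) ⋊[mulAutArrow] (Perm (ZMod n)) :=
    ⟨fun i => FreeGroup.of i, 1⟩
  have hfin : Finite (ZMod n) := Finite.of_fintype (ZMod n)
  have hpow : ∀ k : ℕ, (α ^ k).left = 1 ∧ (α ^ k).right 0 = (k : ZMod n) := by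
    intro k
    induction k with
    | zero => exact ⟨rfl, by simp⟩
    | succ k ih =>
      refine ⟨?_, ?_⟩
      · funext i
        rw [pow_succ', W_left, ih.1]
        exact one_mul 1
      · rw [pow_succ', SemidirectProduct.mul_right, Perm.mul_apply, ih.2]
        show 1 + (k : ZMod n) = _
        push_cast
        ring
  refine onto_of_wreath (FreeGroup.lift ![α, β]) (0 : ZMod n)
    (Set.range FreeGroup.of) (FreeGroup.closure_range_of _) ?_
  rintro _ ⟨i, rfl⟩
  refine ⟨(FreeGroup.of 0 ^ i.val)⁻¹ * FreeGroup.of 1 * FreeGroup.of 0 ^ i.val, ?_, ?_⟩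
  · rw [map_mul, map_mul, map_inv, map_pow, FreeGroup.lift_apply_of, FreeGroup.lift_apply_of]
    show (((α ^ i.val)⁻¹ * β * α ^ i.val).right) 0 = 0
    rw [SemidirectProduct.mul_right, SemidirectProduct.mul_right, SemidirectProduct.inv_right]
    show (((α ^ i.val).right)⁻¹ * 1 * (α ^ i.val).right) 0 = 0
    rw [mul_one, inv_mul_cancel]
    rfl
  · rw [map_mul, map_mul, map_inv, map_pow, FreeGroup.lift_apply_of, FreeGroup.lift_apply_of]
    show ((α ^ i.val)⁻¹ * β * α ^ i.val).left 0 = FreeGroup.of i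
    have h1 : (α ^ i.val)⁻¹.left 0 = 1 := by
      have h2 : ((α ^ i.val)⁻¹ * (α ^ i.val)).left 0 = (1 : FreeGroup (ZMod n)) := by
        rw [inv_mul_cancel]; rfl
      rw [W_left, (hpow _).1] at h2
      simpa using h2
    rw [W_left, W_left, (hpow _).1, h1, one_mul]
    show β.left (((α ^ i.val)⁻¹.right)⁻¹ 0) * 1 = FreeGroup.of i
    rw [SemidirectProduct.inv_right, inv_inv, (hpow _).2, mul_one, ZMod.natCast_zmod_val]

end Pool.Agent.W2helper38.UA
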