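import Pool.Agent.W2helper38.UA.Fol
import Pool.Agent.W2helper38.UA.Ind

/-!
# Uniform amenability and the quotients of a large group
-/

set_option autoImplicit false

open scoped Pointwise

namespace Pool.Agent.W2helper38.UA

open Classical in
/-- the class `𝒞` is uniformly amenable -/
def UnifAm (𝒞 : (G : Type) → [Group G] → Prop) : Prop :=
  ∀ ε : ℝ, 0 < ε → ε < 1 → ∀ n : ℕ, ∃ N : ℕ, ∀ (G : Type) [Group G], 𝒞 G →
    ∀ S : Finset G, S.card ≤ n → ∃ F : Finset G, F.Nonempty ∧ F.card ≤ N ∧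
      ((S * F).card : ℝ) ≤ (1 + ε) * F.card

open Classical in
/-- Følner sets of bounded size, for the image of `1` and `Z`, in the finite quotients of `Δ` that
satisfy the law `w` -/
def FolnerQuot (Δ : Type) [Group Δ] (Z : Finset Δ) : Prop :=
  ∀ (k : ℕ) (w : FreeGroup (Fin k)), w ≠ 1 → ∀ ε : ℝ, 0 < ε → ε < 1 → ∃ N : ℕ,
    ∀ (P : Type) [Group P] [Finite P] (φ : Δ →* P), Function.Surjective φ → Law w P →
      ∃ F : Finset P, F.Nonempty ∧ F.card ≤ N ∧
        ((insert 1 (Z.image φ) * F).card : ℝ) ≤ (1 + ε) * F.card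

open Classical in
lemma bd_le {Δ P : Type} [Group Δ] [Group P] (Z : Finset Δ) (π : Δ →* P) (F' : Finset P) {ε' : ℝ}
    (h : ((insert 1 (Z.image π) * F').card : ℝ) ≤ (1 + ε') * F'.card) {z : Δ} (hz : z ∈ Z) :
    ((bd (π z) F' : ℕ) : ℝ) ≤ ε' * F'.card := by
  have h1 : F' ∪ (π z • F' \ F') ⊆ insert 1 (Z.image π) * F' := by
    intro x hx
    rw [Finset.mem_union, Finset.mem_sdiff] at hx
    rcases hx with hx | hx
    · have := Finset.mul_mem_mul (Finset.mem_insert_self 1 (Z.image π)) hx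
      rwa [one_mul] at this
    · obtain ⟨y, hy, rfl⟩ := Finset.mem_smul_finset.1 hx.1
      exact Finset.mul_mem_mul (Finset.mem_insert_of_mem (Finset.mem_image_of_mem π hz)) hy
  have h3 := Finset.card_le_card h1
  rw [Finset.card_union_of_disjoint Finset.disjoint_sdiff] at h3
  have h2 : F'.card + bd (π z) F' ≤ (insert 1 (Z.image π) * F').card := h3
  have h6 : ((F'.card + bd (π z) F' : ℕ) : ℝ) ≤ ((insert 1 (Z.image π) * F').card : ℝ) := by
    exact_mod_cast h2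
  have h4 := h6.trans h
  push_cast at h4
  linarith

theorem forward (Δ : Type) [Group Δ] (Z : Finset Δ)
    (h : ∀ (k : ℕ) (w : FreeGroup (Fin k)), w ≠ 1 → UnifAm (fun G _ => Finite G ∧ Law w G)) :
    FolnerQuot Δ Z := by
  classical
  intro k w hw ε hε hε1
  obtain ⟨N, hN⟩ := h k w hw ε hε hε1 (Z.card + 1)
  refine ⟨N, fun P _ _ φ _ hP => ?_⟩
  obtain ⟨F, h1, h2, h3⟩ := hN P ⟨inferInstance, hP⟩ (insert 1 (Z.image φ))
    ((Finset.card_insert_le _ _).trans (Nat.add_le_add_right Finset.card_image_le 1))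
  exact ⟨F, h1, h2, h3⟩

theorem backward (Δ : Type) [Group Δ] (Z : Finset Δ) (hZ : Subgroup.closure (Z : Set Δ) = ⊤)
    (hL : Onto Δ (FreeGroup (Fin 2))) (h : FolnerQuot Δ Z) :
    ∀ (k : ℕ) (w : FreeGroup (Fin k)), w ≠ 1 → UnifAm (fun G _ => Finite G ∧ Law w G) := by
  classical
  intro k w hw ε hε hε1 n
  obtain ⟨Λ, hΛ, f₀, hf₀⟩ := hL.trans (free_onto (n + 1))
  have _ : Fintype (ZMod (n + 1)) := inferInstance
  choose lam hlam using fun i : ZMod (n + 1) => hf₀ (FreeGroup.of i)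
  choose L hLb using fun i : ZMod (n + 1) => bd_word Z hZ ((lam i : Λ) : Δ)
  set Lt : ℕ := ∑ i, L i with hLt
  have hm : 0 < Λ.normalCore.index :=
    Nat.pos_of_ne_zero (inferInstance : Λ.normalCore.FiniteIndex).index_ne_zero
  set ε' : ℝ := ε / (Lt + 1) with hε'
  have hε'0 : 0 < ε' := by positivity
  have hε'1 : ε' ≤ ε := by
    rw [hε']
    apply div_le_self hε.le
    have : (0 : ℝ) ≤ Lt := by positivity
    linarith
  have hε'2 : (Lt : ℝ) * ε' ≤ ε := by
    rw [hε', mul_div_assoc', div_le_iff₀ (by positivity)]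
    nlinarith
  obtain ⟨N, hN⟩ := h k _ (pow_word_ne hw hm) ε' hε'0 (hε'1.trans_lt hε1)
  refine ⟨N, fun G _ hG S hS => ?_⟩
  obtain ⟨hGf, hGw⟩ := hG
  -- the enumeration of `S`
  let s : ZMod (n + 1) → G := fun i =>
    if h : i.val < S.card then (S.equivFin.symm ⟨i.val, h⟩ : S) else 1
  have hs : ∀ g ∈ S, ∃ i, s i = g := by
    intro g hg
    have h1 : (S.equivFin ⟨g, hg⟩).val < S.card := (S.equivFin ⟨g, hg⟩).2
    refine ⟨((S.equivFin ⟨g, hg⟩).val : ℕ), ?_⟩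
    have h2 : (((S.equivFin ⟨g, hg⟩).val : ℕ) : ZMod (n + 1)).val = (S.equivFin ⟨g, hg⟩).val :=
      ZMod.val_natCast_of_lt (by omega)
    show (if h : (((S.equivFin ⟨g, hg⟩).val : ℕ) : ZMod (n + 1)).val < S.card then
      ((S.equivFin.symm ⟨(((S.equivFin ⟨g, hg⟩).val : ℕ) : ZMod (n + 1)).val, h⟩ : S) : G) else 1) = g
    have h3 : (((S.equivFin ⟨g, hg⟩).val : ℕ) : ZMod (n + 1)).val < S.card := by rw [h2]; exact h1
    rw [dif_pos h3]
    have h4 : (⟨(((S.equivFin ⟨g, hg⟩).val : ℕ) : ZMod (n + 1)).val, h3⟩ : Fin S.card) =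
        S.equivFin ⟨g, hg⟩ := Fin.ext h2
    rw [h4, Equiv.symm_apply_apply]
  let f : Λ →* G := (FreeGroup.lift s).comp f₀
  have hf : ∀ i, f (lam i) = s i := by
    intro i
    show FreeGroup.lift s (f₀ (lam i)) = s i
    rw [hlam, FreeGroup.lift_apply_of]
  obtain ⟨M, hMn, hMf, hM1, hM2⟩ := induced_quotient Λ hΛ f
  let π : Δ →* Δ ⧸ M := QuotientGroup.mk' M
  obtain ⟨F', hF1, hF2, hF3⟩ := hN (Δ ⧸ M) π (QuotientGroup.mk'_surjective M) (hM2 k w hGw)
  -- the boundary for the generators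
  have hgen : ∀ z ∈ Z, ((bd (π z) F' : ℕ) : ℝ) ≤ ε' * F'.card := fun z hz =>
    bd_le Z π F' hF3 hz
  set c : ℕ := ⌊ε' * (F'.card : ℝ)⌋₊ with hc
  have hgen2 : ∀ z ∈ Z, bd (π z) F' ≤ c := fun z hz => Nat.le_floor (hgen z hz)
  have hc2 : (c : ℝ) ≤ ε' * F'.card := Nat.floor_le (by positivity)
  have hsum : ((∑ i, bd (π (lam i : Δ)) F' : ℕ) : ℝ) ≤ ε * F'.card := by
    have h1 : ∑ i, bd (π (lam i : Δ)) F' ≤ Lt * c := by
      rw [hLt, Finset.sum_mul]
      exact Finset.sum_le_sum fun i _ => hLb i _ π F' c hgen2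
    calc ((∑ i, bd (π (lam i : Δ)) F' : ℕ) : ℝ) ≤ ((Lt * c : ℕ) : ℝ) := by exact_mod_cast h1
      _ = Lt * (c : ℝ) := by push_cast; ring
      _ ≤ Lt * (ε' * F'.card) := mul_le_mul_of_nonneg_left hc2 (by positivity)
      _ = (Lt * ε') * F'.card := by ring
      _ ≤ ε * F'.card := mul_le_mul_of_nonneg_right hε'2 (by positivity)
  -- the section
  let K : Subgroup (Δ ⧸ M) := Λ.map π
  let ρ : Λ →* K := π.subgroupMap Λ
  have hρ : Function.Surjective ρ := π.subgroupMap_surjective Λ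
  have hker : ρ.ker ≤ f.ker := by
    intro l hl
    apply hM1
    have h1 : π (l : Δ) = 1 := congrArg Subtype.val (show ρ l = 1 from hl)
    exact (QuotientGroup.eq_one_iff _).1 h1
  let θ : K →* G := ρ.liftOfSurjective hρ ⟨f, hker⟩
  have hθ : ∀ l : Λ, θ (ρ l) = f l := fun l =>
    MonoidHom.liftOfRightInverse_comp_apply ρ _ (Function.rightInverse_surjInv hρ) ⟨f, hker⟩ l
  obtain ⟨F, g1, g2, g3⟩ := section_folner K θ (fun i => ρ (lam i)) F' hF1 ε hsum
  refine ⟨F, g1, g2.trans hF2, ?_⟩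
  have h1 : S * F ⊆ F ∪ Finset.univ.biUnion (fun i : ZMod (n + 1) => s i • F \ F) := by
    intro x hx
    obtain ⟨g, hg, y, hy, rfl⟩ := Finset.mem_mul.1 hx
    obtain ⟨i, rfl⟩ := hs g hg
    rw [Finset.mem_union]
    by_cases hF : s i * y ∈ F
    · exact Or.inl hF
    · right
      rw [Finset.mem_biUnion]
      exact ⟨i, Finset.mem_univ _, Finset.mem_sdiff.2 ⟨Finset.smul_mem_smul_finset hy, hF⟩⟩
  have h2 : (S * F).card ≤ F.card + ∑ i, bd (s i) F := by
    refine (Finset.card_le_card h1).trans ((Finset.card_union_le _ _).trans ?_)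
    apply Nat.add_le_add_left
    refine Finset.card_biUnion_le.trans ?_
    apply Finset.sum_le_sum
    intro i _
    exact le_of_eq rfl
  have h3 : ∑ i, bd (s i) F = ∑ i, bd (θ (ρ (lam i))) F := by
    apply Finset.sum_congr rfl
    intro i _
    rw [hθ, hf]
  rw [h3] at h2
  have h4 : ((S * F).card : ℝ) ≤ ((F.card + ∑ i, bd (θ (ρ (lam i))) F : ℕ) : ℝ) := by
    exact_mod_cast h2
  rw [Nat.cast_add] at h4
  have h5 : ((S * F).card : ℝ) ≤ (1 + ε) * F.card := by linarith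
  exact h5

end Pool.Agent.W2helper38.UA
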