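import Pool.Agent.W2helper38.UA.Main
import Pool.Agent.W2helper38.IN.Hur

/-!
# The triangle group (2,3,7) is large
-/

set_option autoImplicit false

open Equiv (Perm)
open scoped Pointwise

namespace Pool.Agent.W2helper38.UA

open Pool.Agent.W2helper38.IN

theorem hur_key {G : Type} [Group G] {s : Fin 3 → G} :
    ∀ m, ∃ v ∈ Subgroup.closure ({xW s, yW} : Set (V42 G)), v.right 0 = 0 ∧ v.left 0 = s m := by
  set x : V42 G := xW s with hx
  set y : V42 G := yW with hy
  set K : Subgroup (V42 G) := Subgroup.closure {x, y} with hK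
  have hxK : x ∈ K := Subgroup.subset_closure (by simp)
  have hyK : y ∈ K := Subgroup.subset_closure (by simp)
  let Z : Set (Fin 42) := {i | ∃ v ∈ K, v.right⁻¹ 0 = i ∧ v.left 0 = 1}
  have Z0 : (0 : Fin 42) ∈ Z := ⟨1, one_mem _, rfl, rfl⟩
  have Zb : ∀ i ∈ Z, bF i ∈ Z := by
    rintro _ ⟨v, hv, rfl, h⟩
    refine ⟨v * (y * y), mul_mem hv (mul_mem hyK hyK), ?_, ?_⟩
    · rw [V_right, mul_inv_rev, Perm.mul_apply]
      show bF (bF (bF (bF (v.right⁻¹ 0)))) = bF (v.right⁻¹ 0)
      rw [bF_bF]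
    · rw [V_left, h, V_left]
      show (1 : G) * (1 * 1) = 1
      rw [one_mul, one_mul]
  have Za : ∀ i ∈ Z, lbl i = none → aF i ∈ Z := by
    rintro _ ⟨v, hv, rfl, h⟩ hl
    refine ⟨v * x, mul_mem hv hxK, ?_, ?_⟩
    · rw [V_right, mul_inv_rev, Perm.mul_apply]
      rfl
    · rw [V_left, h, one_mul]
      show ev s (lbl (v.right⁻¹ 0)) = 1
      rw [hl]
      rfl
  have Zgo : ∀ (l : List Bool) (i : Fin 42), i ∈ Z → okp l i = true → go l i ∈ Z := by
    intro l
    induction l with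
    | nil => intro i hi _; exact hi
    | cons c l ih =>
      intro i hi hl
      rcases c with _ | _
      · exact ih _ (Zb i hi) hl
      · have h2 : ((lbl i).isNone && okp l (aF i)) = true := hl
        rw [Bool.and_eq_true, Option.isNone_iff_eq_none] at h2
        exact ih _ (Za i hi h2.1) h2.2
  have Z1 : (19 : Fin 42) ∈ Z := by
    rw [← go1.1]
    exact Zgo _ 0 Z0 go1.2
  have Z2 : (40 : Fin 42) ∈ Z := by
    rw [← go2.1]
    exact Zgo _ 0 Z0 go2.2
  have key : ∀ i ∈ Z, ∀ m, lbl i = some m → ∃ v ∈ K, v.right 0 = 0 ∧ v.left 0 = s m := by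
    rintro _ ⟨v, hv, rfl, h⟩ m hm
    have ha : aF (v.right⁻¹ 0) = v.right⁻¹ 0 := aF_of_lbl _ (by rw [hm]; simp)
    have hr : (v * x * v⁻¹).right 0 = 0 := by
      rw [V_right, V_right, Perm.mul_apply, Perm.mul_apply]
      show v.right (aF (v.right⁻¹ 0)) = 0
      rw [ha]
      simp
    refine ⟨v * x * v⁻¹, mul_mem (mul_mem hv hxK) (inv_mem hv), hr, ?_⟩
    have h1 : (v * x * v⁻¹ * v).left 0 = s m := by
      rw [inv_mul_cancel_right, V_left, h, one_mul]
      show ev s (lbl (v.right⁻¹ 0)) = s m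
      rw [hm]
      rfl
    rw [V_left] at h1
    have h2 : (v * x * v⁻¹).right⁻¹ 0 = 0 := by
      rw [Perm.inv_eq_iff_eq]
      exact hr.symm
    rw [h2, h, mul_one] at h1
    exact h1
  intro m
  fin_cases m
  · exact key _ Z0 0 (by decide)
  · exact key _ Z1 1 (by decide)
  · exact key _ Z2 2 (by decide)

/-- the relators -/
def rels : Set (FreeGroup (Fin 2)) :=
  {FreeGroup.of 0 * FreeGroup.of 0, FreeGroup.of 1 * FreeGroup.of 1 * FreeGroup.of 1,
    (FreeGroup.of 0 * FreeGroup.of 1) ^ 7}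

/-- the triangle group (2,3,7) -/
abbrev Tri : Type := PresentedGroup rels

lemma tri_rel (r : FreeGroup (Fin 2)) (hr : r ∈ rels) : PresentedGroup.mk rels r = 1 :=
  PresentedGroup.one_of_mem hr

/-- the wreath product of the free group with the group of order two -/
abbrev W2 : Type := (Fin 2 → FreeGroup (Fin 2)) ⋊[mulAutArrow] (Perm (Fin 2))

/-- the involutions -/
def iota (g : FreeGroup (Fin 2)) : W2 := ⟨![g, g⁻¹], Equiv.swap 0 1⟩

lemma iota_sq (g : FreeGroup (Fin 2)) : iota g * iota g = 1 := by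
  apply SemidirectProduct.ext
  · funext i
    rw [W_left]
    fin_cases i
    · show g * g⁻¹ = 1
      exact mul_inv_cancel g
    · show g⁻¹ * g = 1
      exact inv_mul_cancel g
  · exact Equiv.swap_mul_self 0 1

/-- three involutions -/
def s3 : Fin 3 → W2 := ![iota 1, iota (FreeGroup.of 0), iota (FreeGroup.of 1)]

/-- the group generated by the three involutions -/
abbrev D3 : Type := Subgroup.closure (Set.range s3)

/-- the three involutions, as elements of the group -/
def t3 (m : Fin 3) : D3 := ⟨s3 m, Subgroup.subset_closure ⟨m, rfl⟩⟩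

lemma t3_sq (m : Fin 3) : t3 m * t3 m = 1 := by
  apply Subtype.ext
  show s3 m * s3 m = 1
  fin_cases m <;> exact iota_sq _

lemma t3_gen : Subgroup.closure (Set.range t3) = ⊤ := by
  have h1 : Set.range t3 = (Subtype.val : D3 → W2) ⁻¹' (Set.range s3) := by
    ext z
    constructor
    · rintro ⟨m, rfl⟩
      exact ⟨m, rfl⟩
    · rintro ⟨m, hm⟩
      exact ⟨m, Subtype.ext hm⟩
  rw [h1]
  exact Subgroup.closure_closure_coe_preimage

lemma onto_D3 : Onto D3 (FreeGroup (Fin 2)) := by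
  refine onto_of_wreath (Subgroup.subtype _) (0 : Fin 2) (Set.range FreeGroup.of)
    (FreeGroup.closure_range_of _) ?_
  have key : ∀ g : FreeGroup (Fin 2), (iota g * iota 1).right 0 = 0 ∧
      (iota g * iota 1).left 0 = g := by
    intro g
    refine ⟨?_, ?_⟩
    · show (Equiv.swap 0 1 * Equiv.swap 0 1 : Perm (Fin 2)) 0 = 0
      rw [Equiv.swap_mul_self]
      rfl
    · rw [W_left]
      show g * (1 : FreeGroup (Fin 2))⁻¹ = g
      rw [inv_one, mul_one]
  rintro _ ⟨i, rfl⟩
  fin_cases i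
  · exact ⟨t3 1 * t3 0, key _⟩
  · exact ⟨t3 2 * t3 0, key _⟩

theorem onto_tri : Onto Tri (FreeGroup (Fin 2)) := by
  refine Onto.trans ?_ onto_D3
  have hrel : ∀ r ∈ rels, FreeGroup.lift ![(xW t3 : V42 D3), yW] r = 1 := by
    rintro r (rfl | rfl | rfl)
    · rw [map_mul, FreeGroup.lift_apply_of]
      exact xW_sq t3_sq
    · rw [map_mul, map_mul, FreeGroup.lift_apply_of]
      exact yW_cube
    · rw [map_pow, map_mul, FreeGroup.lift_apply_of, FreeGroup.lift_apply_of]
      exact xy_seven t3_sq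
  let Φ : Tri →* V42 D3 := PresentedGroup.toGroup hrel
  have hΦx : Φ (PresentedGroup.of 0) = xW t3 := PresentedGroup.toGroup.of hrel
  have hΦy : Φ (PresentedGroup.of 1) = yW := PresentedGroup.toGroup.of hrel
  refine onto_of_wreath Φ (0 : Fin 42) (Set.range t3) t3_gen ?_
  rintro _ ⟨m, rfl⟩
  obtain ⟨v, hv, h1, h2⟩ := hur_key (s := t3) m
  have hle : Subgroup.closure ({xW t3, yW} : Set (V42 D3)) ≤ Φ.range := by
    rw [Subgroup.closure_le]
    rintro z (rfl | rfl)
    · exact ⟨_, hΦx⟩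
    · exact ⟨_, hΦy⟩
  obtain ⟨δ, rfl⟩ := hle hv
  exact ⟨δ, h1, h2⟩

open Classical in
/-- Følner sets of bounded size for the generators, in the finite Hurwitz groups that satisfy the
law `w` -/
def FolnerHur : Prop :=
  ∀ (k : ℕ) (w : FreeGroup (Fin k)), w ≠ 1 → ∀ ε : ℝ, 0 < ε → ε < 1 → ∃ N : ℕ,
    ∀ (P : Type) [Group P] [Finite P] (x y : P), x * x = 1 → y * y * y = 1 → (x * y) ^ 7 = 1 →
      Subgroup.closure {x, y} = ⊤ → Law w P →
      ∃ F : Finset P, F.Nonempty ∧ F.card ≤ N ∧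
        ((({1, x, y} : Finset P) * F).card : ℝ) ≤ (1 + ε) * F.card

theorem forward_hur
    (h : ∀ (k : ℕ) (w : FreeGroup (Fin k)), w ≠ 1 → UnifAm (fun G _ => Finite G ∧ Law w G)) :
    FolnerHur := by
  classical
  intro k w hw ε hε hε1
  obtain ⟨N, hN⟩ := h k w hw ε hε hε1 3
  refine ⟨N, fun P _ _ x y _ _ _ _ hP => ?_⟩
  obtain ⟨F, h1, h2, h3⟩ := hN P ⟨inferInstance, hP⟩ {1, x, y} Finset.card_le_three
  exact ⟨F, h1, h2, h3⟩

theorem backward_hur (h : FolnerHur) :
    ∀ (k : ℕ) (w : FreeGroup (Fin k)), w ≠ 1 → UnifAm (fun G _ => Finite G ∧ Law w G) := by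
  classical
  have hgen : Subgroup.closure ((({PresentedGroup.of 0, PresentedGroup.of 1} : Finset Tri)) :
      Set Tri) = ⊤ := by
    rw [← PresentedGroup.closure_range_of rels]
    congr 1
    ext z
    simp only [Finset.coe_insert, Finset.coe_singleton, Set.mem_insert_iff,
      Set.mem_singleton_iff, Set.mem_range]
    constructor
    · rintro (rfl | rfl)
      · exact ⟨0, rfl⟩
      · exact ⟨1, rfl⟩
    · rintro ⟨i, rfl⟩
      fin_cases i
      · exact Or.inl rfl
      · exact Or.inr rfl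
  refine backward Tri {PresentedGroup.of 0, PresentedGroup.of 1} hgen onto_tri ?_
  intro k w hw ε hε hε1
  obtain ⟨N, hN⟩ := h k w hw ε hε hε1
  refine ⟨N, fun P _ _ φ hφ hP => ?_⟩
  have hr : ∀ r ∈ rels, φ (PresentedGroup.mk rels r) = 1 := fun r hr => by
    rw [tri_rel r hr, map_one]
  have r1 : φ (PresentedGroup.of 0) * φ (PresentedGroup.of 0) = 1 := by
    rw [← map_mul]
    exact hr _ (Or.inl rfl)
  have r2 : φ (PresentedGroup.of 1) * φ (PresentedGroup.of 1) * φ (PresentedGroup.of 1) = 1 := by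
    rw [← map_mul, ← map_mul]
    exact hr _ (Or.inr (Or.inl rfl))
  have r3 : (φ (PresentedGroup.of 0) * φ (PresentedGroup.of 1)) ^ 7 = 1 := by
    rw [← map_mul, ← map_pow]
    exact hr _ (Or.inr (Or.inr rfl))
  have r4 : Subgroup.closure ({φ (PresentedGroup.of 0), φ (PresentedGroup.of 1)} : Set P) = ⊤ := by
    have h5 : ({φ (PresentedGroup.of 0), φ (PresentedGroup.of 1)} : Set P) =
        φ '' ((({PresentedGroup.of 0, PresentedGroup.of 1} : Finset Tri)) : Set Tri) := by
      rw [Finset.coe_insert, Finset.coe_singleton, Set.image_pair]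
    rw [h5, ← MonoidHom.map_closure, hgen, ← MonoidHom.range_eq_map, MonoidHom.range_eq_top.2 hφ]
  obtain ⟨F, h1, h2, h3⟩ := hN P (φ (PresentedGroup.of 0)) (φ (PresentedGroup.of 1)) r1 r2 r3 r4 hP
  refine ⟨F, h1, h2, ?_⟩
  have h4 : insert 1 ((({PresentedGroup.of 0, PresentedGroup.of 1} : Finset Tri)).image φ) =
      ({1, φ (PresentedGroup.of 0), φ (PresentedGroup.of 1)} : Finset P) := by
    rw [Finset.image_insert, Finset.image_singleton]
  rw [← h4] at h3
  exact h3

end Pool.Agent.W2helper38.UA
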